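import Mathlib

set_option autoImplicit false

open Finset

namespace Pool.Agent.E8helper61.SI

/-- The pairs (2-subsets) inside the set `R`. -/
def Ed {V : Type} (R : Finset V) : Finset (Finset V) := R.powersetCard 2

/-- The pairs joining `v` to `R`. -/
def star {V : Type} [DecidableEq V] (v : V) (R : Finset V) : Finset (Finset V) :=
  R.image (fun u => ({u, v} : Finset V))

/-- `B(r,k) = ∑_{i ≤ k} C(r,i)`. -/
def Bs (r k : ℕ) : ℕ := ∑ i ∈ range (k + 1), r.choose i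

/-- COMP: compression. `D` is closed under subsets. -/
def CompStatement : Prop :=
  ∀ (α : Type) [DecidableEq α] [Fintype α] (D : Finset α → Prop),
    (∀ x y : Finset α, x ⊆ y → D y → D x) →
    ∀ A : Finset (Finset α), (∀ x ∈ A, ∀ y ∈ A, D (symmDiff x y)) →
      ∃ B : Finset (Finset α), B.card = A.card ∧ ∀ x ∈ B, ∀ y ∈ B, D (x ∪ y)

/-- CNT: counting sets avoiding `E₀` and meeting each `E i` in at most `k` elements. -/
def CountStatement : Prop :=
  ∀ (β ι : Type) [DecidableEq β] [DecidableEq ι] (T : Finset ι) (Ω E₀ : Finset β)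
    (E : ι → Finset β) (r k : ℕ), E₀ ⊆ Ω → (∀ i ∈ T, E i ⊆ Ω) → (∀ i ∈ T, (E i).card = r) →
    (∀ i ∈ T, Disjoint (E i) E₀) → (∀ i ∈ T, ∀ j ∈ T, i ≠ j → Disjoint (E i) (E j)) →
    (Ω.powerset.filter (fun x => Disjoint x E₀ ∧ ∀ i ∈ T, (x ∩ E i).card ≤ k)).card *
      (2 ^ E₀.card * (2 ^ r) ^ T.card) ≤ 2 ^ Ω.card * (Bs r k) ^ T.card

/-- FAR: graphs (sets of pairs) with two independent `r`-sets `R`, `S`, `|S \ R| = j`. -/
def FarStatement : Prop :=
  ∀ (V : Type) [DecidableEq V] [Fintype V] (r j : ℕ), j ≤ r →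
    ((Ed (univ : Finset V)).powerset.filter (fun x => ∃ R S : Finset V, R.card = r ∧ S.card = r ∧
      Disjoint x (Ed R) ∧ Disjoint x (Ed S) ∧ (S \ R).card = j)).card *
      (2 ^ (r.choose 2) * 2 ^ (j * (r - j) + j.choose 2)) ≤
    2 ^ ((Fintype.card V).choose 2) *
      ((Fintype.card V).choose r * (r.choose j * (Fintype.card V - r).choose j))

/-- NUMA -/
def NumAStatement : Prop :=
  ∀ r n : ℕ, 4 ≤ r → r ≤ n → n ^ 8 ≤ 2 ^ r → 2 * ((r + 1) * n * Bs r (r / 6)) ≤ 2 ^ r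

/-- NUMB -/
def NumBStatement : Prop :=
  ∀ r n j : ℕ, 4 ≤ r → r ≤ n → n ^ 8 ≤ 2 ^ r → r < 6 * j → j ≤ r →
    2 ^ r * (n.choose r * (r.choose j * (n - r).choose j)) ≤ 2 ^ (j * (r - j) + j.choose 2)

/-- LIN -/
def LinStatement : Prop :=
  ∀ r t : ℕ, 11 ≤ r → 5 * t ≤ r → (r + 1) * t * Bs r t ≤ 2 ^ r

/-- Admissible families of graphs. -/
def Adm (r n : ℕ) (F : Finset (SimpleGraph (Fin n))) : Prop :=
  ∀ G ∈ F, ∀ H ∈ F, G ≠ H → ∃ s : Finset (Fin n), (symmDiff G H).IsNIndepSet r s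

/-- LOW: the construction. -/
def LowStatement : Prop :=
  ∀ r n : ℕ, r ≤ n → ∃ F : Finset (SimpleGraph (Fin n)), Adm r n F ∧
    F.card = 2 ^ (n.choose 2 - r.choose 2)

/-- The union form of the bound, for sets of pairs. -/
def UnionBound (r n : ℕ) : Prop :=
  ∀ A : Finset (Finset (Finset (Fin n))),
    (∀ x ∈ A, ∀ y ∈ A, x ∪ y ⊆ Ed (univ : Finset (Fin n)) ∧
      ∃ R : Finset (Fin n), R.card = r ∧ Disjoint (x ∪ y) (Ed R)) →
    A.card * 2 ^ (r.choose 2) ≤ 2 ^ (n.choose 2)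

/-- UP: from the union form to graph families (uses COMP). -/
def UpStatement : Prop :=
  CompStatement → ∀ r n : ℕ, r ≤ n → UnionBound r n →
    ∀ F : Finset (SimpleGraph (Fin n)), Adm r n F → F.card ≤ 2 ^ (n.choose 2 - r.choose 2)

/-- MAIN. -/
def MainStatement : Prop :=
  CountStatement → FarStatement → ∀ (r n k : ℕ) (lam kap : ℝ), r ≤ n → lam + kap ≤ 1 → 0 ≤ kap →
    (∀ a : ℕ, 1 ≤ a → a ≤ n - r →
      ((r + a).choose r * (n - r).choose a * (Bs r k) ^ a : ℝ) ≤ lam * (2 ^ r) ^ a) →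
    (∑ j ∈ Ioc k r, ((n.choose r * (r.choose j * (n - r).choose j) : ℝ) /
      2 ^ (j * (r - j) + j.choose 2)) ≤ kap) →
    UnionBound r n

end Pool.Agent.E8helper61.SI
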