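import Mathlib
import Pool.Agent.E8helper61.SI.Stm

set_option autoImplicit false

open Finset

namespace Pool.Agent.E8helper61.SI

/-- `R` is an `r`-set containing no pair of `x`. -/
def Ind {n : ℕ} (r : ℕ) (x : Finset (Finset (Fin n))) (R : Finset (Fin n)) : Prop :=
  R.card = r ∧ Disjoint x (Ed R)

open Classical in
/-- The union of all the independent `r`-sets of `x`. -/
noncomputable def Wd {n : ℕ} (r : ℕ) (x : Finset (Finset (Fin n))) : Finset (Fin n) :=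
  univ.filter (fun v => ∃ R : Finset (Fin n), Ind r x R ∧ v ∈ R)

/-- `C(r,j) C(n-r,j) / 2^(j(r-j)+C(j,2))`. -/
noncomputable def pw (n r j : ℕ) : ℝ :=
  (r.choose j * (n - r).choose j : ℝ) / 2 ^ (j * (r - j) + j.choose 2)

/-- The probability bound for `|Wd| ≥ r + a`, given that `R` is independent. -/
noncomputable def qr (n r k a : ℕ) : ℝ :=
  (∑ j ∈ Ioc k r, pw n r j) + ((n - r).choose a * (Bs r k) ^ a : ℝ) / (2 ^ r) ^ a

/-- `Chain r g x m U`: there are `m` further independent `r`-sets of `x`, each one having at least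
`g` elements outside the union of `U` and of the previous ones. -/
def Chain {n : ℕ} (r g : ℕ) (x : Finset (Finset (Fin n))) : ℕ → Finset (Fin n) → Prop
  | 0, _ => True
  | m + 1, U => ∃ R : Finset (Fin n), Ind r x R ∧ g ≤ (R \ U).card ∧ Chain r g x m (U ∪ R)

/-- `∑_{g ≤ k ≤ r} 2^L n^k / 2^(k(r-k)+C(k,2))`. -/
noncomputable def sg (n r g L : ℕ) : ℝ :=
  ∑ k ∈ Icc g r, (2 ^ L * (n : ℝ) ^ k) / 2 ^ (k * (r - k) + k.choose 2)

open Classical in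
/-- RICH -/
def RichStatement : Prop :=
  ∀ (n r k a : ℕ) (R : Finset (Fin n)), R.card = r →
    (((Ed (univ : Finset (Fin n))).powerset.filter (fun x => Disjoint x (Ed R) ∧
      r + a ≤ (Wd r x).card)).card : ℝ) ≤
      2 ^ (n.choose 2) / 2 ^ (r.choose 2) * qr n r k a

open Classical in
/-- BAD, the inductive form. -/
def BadStatement : Prop :=
  ∀ (n r g L m : ℕ) (U : Finset (Fin n)) (H : Finset (Finset (Fin n))), H ⊆ Ed U →
    U.card + m * r ≤ L →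
    (((Ed (univ : Finset (Fin n))).powerset.filter (fun x => Disjoint x H ∧
      Chain r g x m U)).card : ℝ) ≤ 2 ^ (n.choose 2) / 2 ^ H.card * (sg n r g L) ^ m

/-- STRUCT -/
def StructStatement : Prop :=
  ∀ (n r g m : ℕ) (x : Finset (Finset (Fin n))) (U : Finset (Fin n)), ¬ Chain r g x m U →
    ∃ U' : Finset (Fin n), U ⊆ U' ∧ U'.card ≤ U.card + m * r ∧
      ∀ S : Finset (Fin n), Ind r x S → (S \ U').card < g

open Classical in
/-- CAND -/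
def CandStatement : Prop :=
  ∀ (n r g : ℕ) (U : Finset (Fin n)),
    ((univ : Finset (Finset (Fin n))).filter (fun R => R.card = r ∧ (R \ U).card < g)).card ≤
      2 ^ U.card * Bs n g

/-- PW -/
def PwStatement : Prop :=
  ∀ (n r j : ℕ) (θ : ℝ), j ≤ r → (n : ℝ) ≤ (2 : ℝ) ^ (((r : ℝ) - 1) / 2 - θ) →
    (n : ℝ) ^ j / 2 ^ (j * (r - j) + j.choose 2) ≤ (2 : ℝ) ^ (-(θ * j))

/-- BSP -/
def BspStatement : Prop :=
  (∀ r k : ℕ, Bs r k ≤ (r + 1) ^ k) ∧ (∀ r k : ℕ, 16 * k ≤ r → (Bs r k) ^ 4 ≤ 3 ^ r)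

/-- H1 -/
def H1Statement : Prop :=
  PwStatement → BspStatement → ∀ ε : ℝ, 0 < ε → ε ≤ 1 / 2 → ∃ k r0 : ℕ, ∀ r n : ℕ, r0 ≤ r →
    (n : ℝ) ≤ (2 : ℝ) ^ ((1 / 2 - ε) * r) → ∀ a : ℕ, 1 ≤ a → a ≤ r →
      ((r + a).choose r : ℝ) * qr n r k a ≤ 1

/-- H2A -/
def H2AStatement : Prop :=
  PwStatement → ∀ ε : ℝ, 0 < ε → ε ≤ 1 / 2 → ∃ r0 : ℕ, ∀ r n : ℕ, r0 ≤ r →
    (n : ℝ) ≤ (2 : ℝ) ^ ((1 / 2 - ε) * r) →
      (n.choose r : ℝ) * (sg n r ⌊ε / 32 * r⌋₊ ((⌈128 / ε ^ 2⌉₊ + 1) * r)) ^ ⌈128 / ε ^ 2⌉₊ ≤ 1 / 2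

/-- H2B -/
def H2BStatement : Prop :=
  PwStatement → BspStatement → ∀ ε : ℝ, 0 < ε → ε ≤ 1 / 2 → ∀ m : ℕ, ∃ r0 : ℕ, ∀ r n : ℕ,
    r0 ≤ r → (n : ℝ) ≤ (2 : ℝ) ^ ((1 / 2 - ε) * r) →
      (2 : ℝ) ^ ((m + 1) * r) * Bs n ⌊ε / 32 * r⌋₊ * qr n r (r / 16) r ≤ 1 / 2

/-- HALF -/
def HalfMainStatement : Prop :=
  RichStatement → BadStatement → StructStatement → CandStatement →
    ∀ r n k1 k2 g m : ℕ, r ≤ n →
      (∀ a : ℕ, 1 ≤ a → a ≤ r → ((r + a).choose r : ℝ) * qr n r k1 a ≤ 1) →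
      (n.choose r : ℝ) * (sg n r g ((m + 1) * r)) ^ m +
        (2 : ℝ) ^ ((m + 1) * r) * Bs n g * qr n r k2 r ≤ 1 →
      UnionBound r n

end Pool.Agent.E8helper61.SI
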