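import Mathlib
import Pool.Agent.E8helper61.SI.Stm
import Pool.Agent.H297.Coupling

set_option autoImplicit false

open Finset

namespace Pool.Agent.E8helper61.SI

open Pool.Agent.H297 (Ex)

/-- `M_λ(x) = (x^(1-λ) + (2-x)^(1-λ))/2`. -/
noncomputable def Mf (lam x : ℝ) : ℝ := (x ^ (1 - lam) + (2 - x) ^ (1 - lam)) / 2

/-- `w_λ(x) = (1/λ) log (1/M_λ(x))`. -/
noncomputable def wf (lam x : ℝ) : ℝ := Real.log (1 / Mf lam x) / lam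

/-- `u(x) = 2 (1 - 1/x)`. -/
noncomputable def uf (x : ℝ) : ℝ := 2 * (1 - 1 / x)

/-- COUP: the coupling with exact exponential moment. -/
def CoupStatement : Prop :=
  ∀ (α : Type) [DecidableEq α] (lam : ℝ), 0 < lam → lam < 1 → ∀ (s : Finset α)
    (h : Finset α → ℝ), (∀ g, 0 ≤ h g) →
    ∃ q x : Finset α → α → ℝ,
      (∀ g e, 0 ≤ q g e ∧ 1 ≤ x g e ∧ x g e ≤ 2 ∧ q g e ≤ 1 - 1 / x g e) ∧
      (∀ φ : Finset α → ℝ, (∑ g ∈ s.powerset, h g) * ∑ G ∈ s.powerset, φ G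
        = 2 ^ s.card * ∑ g ∈ s.powerset, h g * Ex (q g) s (fun J => φ (symmDiff g J))) ∧
      ∑ g ∈ s.powerset, (h g) ^ (1 - lam) * ∏ e ∈ s, (1 / Mf lam (x g e))
        ≤ ((2 : ℝ) ^ s.card) ^ lam * (∑ g ∈ s.powerset, h g) ^ (1 - lam)

/-- C1 -/
def C1Statement : Prop :=
  ∃ t0 : ℕ, ∀ t : ℕ, t0 ≤ t → ∀ x : ℝ, 1 ≤ x → x ≤ 2 →
    uf x ≤ Real.exp (-((Real.log 2 - wf (1 / √t) x) / √(√t)) + 1 / (t : ℝ) ^ 3)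

/-- C2 -/
def C2Statement : Prop :=
  ∀ lam x : ℝ, 0 < lam → lam ≤ 1 / 2 → 1 ≤ x → x ≤ 2 →
    0 < Mf lam x ∧ 0 ≤ wf lam x ∧ (uf x) ^ 2 ≤ 16 * wf lam x

/-- The normalised weighted degree. -/
noncomputable def av {n : ℕ} (t : ℕ) (w : Finset (Fin n) → ℝ) (v : Fin n) : ℝ :=
  (∑ e ∈ (Ed (univ : Finset (Fin n))).filter (fun e => v ∈ e), w e) / (((t : ℝ) - 1) * Real.log 2)

/-- VTX: from edges to vertices. -/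
def VtxStatement : Prop :=
  ∀ (n t : ℕ) (u w : Finset (Fin n) → ℝ) (θ δ : ℝ), 10 ≤ t → 0 ≤ θ → 0 ≤ δ →
    (∀ e ∈ Ed (univ : Finset (Fin n)), 0 ≤ u e ∧ u e ≤ 1 ∧ 0 ≤ w e ∧ (u e) ^ 2 ≤ 16 * w e ∧
      u e ≤ Real.exp (-(θ * (Real.log 2 - w e)) + δ)) →
    ∃ g : Fin n → ℝ, (∀ v, 0 ≤ g v ∧ g v ≤ 1 ∧ g v ≤ 12 * av t w v ∧
      (g v) ^ 2 ≤ Real.exp (((t : ℝ) - 1) * δ / 2) *
        Real.exp (-((((t : ℝ) - 1) * θ * Real.log 2 / 2) * (1 - av t w v)))) ∧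
      ∀ U : Finset (Fin n), U.card = t → ∏ e ∈ Ed U, u e ≤ ∏ v ∈ U, (g v) ^ 2

/-- DEG -/
def DegStatement : Prop :=
  ∀ (n t : ℕ) (w : Finset (Fin n) → ℝ), 2 ≤ t →
    ∑ v : Fin n, av t w v = 2 * (∑ e ∈ Ed (univ : Finset (Fin n)), w e) /
      (((t : ℝ) - 1) * Real.log 2)

/-- SYM -/
def SymStatement : Prop :=
  ∀ (n t : ℕ) (g a : Fin n → ℝ) (κ σ E : ℝ), 1 ≤ t → 0 ≤ κ → 0 ≤ σ → 1 ≤ E →
    (∀ v, 0 ≤ g v ∧ g v ≤ 1 ∧ 0 ≤ a v ∧ g v ≤ 12 * a v ∧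
      (g v) ^ 2 ≤ E * Real.exp (-(κ * (1 - a v)))) →
    ∑ v, a v ≤ t + σ →
    ∑ U ∈ (univ : Finset (Fin n)).powersetCard t, ∏ v ∈ U, (g v) ^ 2 ≤
      1 + ∑ i ∈ Icc 1 t, (12 * t * (t + σ)) ^ i *
        (if 2 * σ ≤ i then E ^ t * Real.exp (-(κ * i / 8)) else 1)

/-- NUM3 -/
def Num3Statement : Prop :=
  ∀ ε : ℝ, 0 < ε → ∃ t0 : ℕ, ∀ t : ℕ, t0 ≤ t → ∀ σ : ℝ, 0 ≤ σ →
    ∑ i ∈ Icc 1 t, (12 * (t : ℝ) * (t + σ)) ^ i *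
      (if 2 * σ ≤ i then (Real.exp (((t : ℝ) - 1) * (1 / (t : ℝ) ^ 3) / 2)) ^ t *
        Real.exp (-((((t : ℝ) - 1) * (1 / √(√t)) * Real.log 2 / 2) * i / 8)) else 1) ≤
      ε + (if σ = 0 then 0 else
        ε * Real.exp ((1 / √t) * (σ * (((t : ℝ) - 1) * Real.log 2) / 2)))

/-- The deterministic inequality. -/
def ZStatement : Prop :=
  ∀ ε : ℝ, 0 < ε → ∃ t0 : ℕ, ∀ t : ℕ, t0 ≤ t → ∀ (n : ℕ) (x : Finset (Fin n) → ℝ),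
    (∀ e, 1 ≤ x e ∧ x e ≤ 2) →
    ∑ U ∈ (univ : Finset (Fin n)).powersetCard t, ∏ e ∈ Ed U, uf (x e) ≤
      1 + ε + ε * ((2 : ℝ) ^ (-((1 / √t) * (t.choose 2 : ℝ))) *
        ∏ e ∈ Ed (univ : Finset (Fin n)), (1 / Mf (1 / √t) (x e)))

/-- The asymptotically sharp bound. -/
def AsympStatement : Prop :=
  ∀ ε : ℝ, 0 < ε → ∃ r0 : ℕ, ∀ r n : ℕ, r0 ≤ r → r ≤ n →
    ∀ F : Finset (SimpleGraph (Fin n)), Adm r n F →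
      (F.card : ℝ) ≤ (1 + ε) * 2 ^ (n.choose 2 - r.choose 2)

end Pool.Agent.E8helper61.SI
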