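import Mathlib
import Pool.Agent.E8helper61.SI.Stm3
import Pool.Agent.E8helper59.SI.Up
import Pool.Agent.H297.KtMain

set_option autoImplicit false

open Finset

namespace Pool.Agent.E8helper61.SI

open Pool.Agent.H297 (Ex Ex_subset Ex_mono Ex_sum edg edg_sub mem_edg edg_injective)

lemma mem_Ed_iff {V : Type} {R : Finset V} {e : Finset V} : e ∈ Ed R ↔ e ⊆ R ∧ e.card = 2 := by
  unfold Ed; exact mem_powersetCard

/-- The main inequality for agreeing families of sets of pairs. -/
theorem agree_asymp {n t : ℕ} {lam ε : ℝ} (hl0 : 0 < lam) (hl1 : lam < 1) (hε : 0 < ε)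
    (hC : CoupStatement) (A : Finset (Finset (Finset (Fin n))))
    (hs : ∀ x ∈ A, x ⊆ Ed (univ : Finset (Fin n)))
    (hag : ∀ x ∈ A, ∀ y ∈ A, ∃ R : Finset (Fin n), R.card = t ∧ Disjoint (symmDiff x y) (Ed R))
    (hZ : ∀ x : Finset (Fin n) → ℝ, (∀ e, 1 ≤ x e ∧ x e ≤ 2) →
      ∑ U ∈ (univ : Finset (Fin n)).powersetCard t, ∏ e ∈ Ed U, uf (x e) ≤
        1 + ε + ε * ((2 : ℝ) ^ (-(lam * (t.choose 2 : ℝ))) *
          ∏ e ∈ Ed (univ : Finset (Fin n)), (1 / Mf lam (x e)))) :
    (A.card : ℝ) ≤ (1 + 2 * ε) * (2 ^ (n.choose 2) / 2 ^ (t.choose 2)) := by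
  classical
  set s : Finset (Finset (Fin n)) := Ed (univ : Finset (Fin n)) with hsdef
  have hNc : s.card = n.choose 2 := by
    rw [hsdef]; unfold Ed; rw [card_powersetCard, card_univ, Fintype.card_fin]
  rcases A.eq_empty_or_nonempty with hAe | hAne
  · rw [hAe, card_empty, Nat.cast_zero]; positivity
  obtain ⟨a, ha⟩ : ∃ a : ℝ, a = (A.card : ℝ) := ⟨_, rfl⟩
  have ha0 : 0 < a := by rw [ha]; exact_mod_cast hAne.card_pos
  obtain ⟨P, hP⟩ : ∃ P : ℝ, P = 2 ^ (n.choose 2) / 2 ^ (t.choose 2) := ⟨_, rfl⟩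
  have hP0 : 0 < P := by rw [hP]; positivity
  rw [← hP, ← ha]
  set h : Finset (Finset (Fin n)) → ℝ := fun g => if s \ g ∈ A ∧ g ⊆ s then 1 else 0 with hh
  have hh0 : ∀ g, 0 ≤ h g := by
    intro g; rw [hh]; dsimp only; split_ifs <;> norm_num
  have hhsum : ∑ g ∈ s.powerset, h g = a := by
    rw [hh, ha]
    dsimp only
    rw [← sum_filter, sum_const, nsmul_eq_mul, mul_one]
    congr 1
    apply card_bij (fun g _ => s \ g)
    · intro g hg
      exact ((mem_filter.1 hg).2).1
    · intro g hg g' hg' heq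
      have h1 : g ⊆ s := ((mem_filter.1 hg).2).2
      have h2 : g' ⊆ s := ((mem_filter.1 hg').2).2
      have h3 : s \ (s \ g) = g := by rw [sdiff_sdiff_right_self]; exact inf_eq_right.2 h1
      have h4 : s \ (s \ g') = g' := by rw [sdiff_sdiff_right_self]; exact inf_eq_right.2 h2
      rw [← h3, ← h4, heq]
    · intro B hB
      have h3 : s \ (s \ B) = B := by rw [sdiff_sdiff_right_self]; exact inf_eq_right.2 (hs B hB)
      refine ⟨s \ B, mem_filter.2 ⟨mem_powerset.2 sdiff_subset, ?_, sdiff_subset⟩, h3⟩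
      rw [h3]; exact hB
  obtain ⟨q, x, hqx, hqφ, hqe⟩ := hC (Finset (Fin n)) lam hl0 hl1 s h hh0
  have hmain := hqφ (fun G => if G ∈ A then (1 : ℝ) else 0)
  have hRsum : ∑ G ∈ s.powerset, (if G ∈ A then (1 : ℝ) else 0) = a := by
    rw [← sum_filter, sum_const, nsmul_eq_mul, mul_one, ha]
    congr 2
    ext B
    rw [mem_filter]
    exact ⟨fun h => h.2, fun h => ⟨mem_powerset.2 (hs B h), h⟩⟩
  rw [hRsum, hhsum] at hmain
  set K : ℝ := (2 : ℝ) ^ (-(lam * (t.choose 2 : ℝ))) with hK
  have hK0 : 0 < K := by rw [hK]; positivity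
  have hterm : ∀ g ∈ s.powerset, h g * Ex (q g) s
        (fun J => if (symmDiff g J) ∈ A then (1 : ℝ) else 0)
      ≤ (1 / 2 ^ (t.choose 2)) * ((1 + ε) * h g + ε * K *
        ((h g) ^ (1 - lam) * ∏ e ∈ s, (1 / Mf lam (x g e)))) := by
    intro g hg
    by_cases hc : s \ g ∈ A ∧ g ⊆ s
    · have hhg : h g = 1 := by rw [hh]; dsimp only; rw [if_pos hc]
      rw [hhg, Real.one_rpow, one_mul, one_mul, mul_one]
      have hq0 : ∀ e ∈ s, 0 ≤ q g e := fun e _ => (hqx g e).1
      have hq1 : ∀ e ∈ s, q g e ≤ 1 := by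
        intro e _
        obtain ⟨-, h1, -, h2⟩ := hqx g e
        have : 0 ≤ 1 / x g e := by positivity
        linarith
      have h1 : Ex (q g) s (fun J => if (symmDiff g J) ∈ A then (1 : ℝ) else 0) ≤
          ∑ U ∈ (univ : Finset (Fin n)).powersetCard t, ∏ e ∈ Ed U, q g e := by
        have h2 : Ex (q g) s (fun J => if (symmDiff g J) ∈ A then (1 : ℝ) else 0) ≤
            Ex (q g) s (fun J => ∑ U ∈ (univ : Finset (Fin n)).powersetCard t,
              if Ed U ⊆ J then (1 : ℝ) else 0) := by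
          refine Ex_mono hq0 hq1 (fun J hJ => ?_)
          have hnn : ∀ W ∈ powersetCard t (univ : Finset (Fin n)),
              (0 : ℝ) ≤ if Ed W ⊆ J then 1 else 0 :=
            fun W _ => by split_ifs <;> norm_num
          by_cases hJc : symmDiff g J ∈ A
          · rw [if_pos hJc]
            obtain ⟨U, hU, hdisj⟩ := hag _ hc.1 _ hJc
            have hUJ : Ed U ⊆ J := by
              intro e he
              have hes : e ∈ s := by
                rw [hsdef, mem_Ed_iff]
                exact ⟨subset_univ _, (mem_Ed_iff.1 he).2⟩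
              have hnd : e ∉ symmDiff (s \ g) (symmDiff g J) :=
                fun hcon => (disjoint_left.1 hdisj) hcon he
              simp only [mem_symmDiff, mem_sdiff] at hnd
              by_contra heJ
              apply hnd
              by_cases heg : e ∈ g
              · right; simp [heg, heJ]
              · left; simp [heg, heJ, hes]
            refine le_trans ?_ (single_le_sum hnn (mem_powersetCard.2 ⟨subset_univ U, hU⟩))
            rw [if_pos hUJ]
          · rw [if_neg hJc]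
            exact sum_nonneg hnn
        refine h2.trans ?_
        rw [Ex_sum]
        refine le_of_eq (sum_congr rfl fun U _ => ?_)
        refine Ex_subset (q g) s _ ?_
        intro e he
        rw [hsdef, mem_Ed_iff]
        exact ⟨subset_univ _, (mem_Ed_iff.1 he).2⟩
      have h3 : ∑ U ∈ (univ : Finset (Fin n)).powersetCard t, ∏ e ∈ Ed U, q g e ≤
          (1 / 2 ^ (t.choose 2)) * ∑ U ∈ (univ : Finset (Fin n)).powersetCard t,
            ∏ e ∈ Ed U, uf (x g e) := by
        rw [mul_sum]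
        refine sum_le_sum fun U hU => ?_
        have hUc : (Ed U).card = t.choose 2 := by
          unfold Ed; rw [card_powersetCard, (mem_powersetCard.1 hU).2]
        calc ∏ e ∈ Ed U, q g e ≤ ∏ e ∈ Ed U, ((1 / 2) * uf (x g e)) := by
              refine prod_le_prod (fun e _ => (hqx g e).1) (fun e _ => ?_)
              have := (hqx g e).2.2.2
              unfold uf
              linarith
          _ = (1 / 2 ^ (t.choose 2)) * ∏ e ∈ Ed U, uf (x g e) := by
              rw [prod_mul_distrib, prod_const, hUc, one_div_pow]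
      have h4 := hZ (fun e => x g e) (fun e => ⟨(hqx g e).2.1, (hqx g e).2.2.1⟩)
      calc Ex (q g) s (fun J => if (symmDiff g J) ∈ A then (1 : ℝ) else 0) ≤ _ := h1
        _ ≤ _ := h3
        _ ≤ (1 / 2 ^ (t.choose 2)) * (1 + ε + ε * (K * ∏ e ∈ s, (1 / Mf lam (x g e)))) := by
            apply mul_le_mul_of_nonneg_left h4 (by positivity)
        _ = _ := by ring
    · have hhg : h g = 0 := by rw [hh]; dsimp only; rw [if_neg hc]
      rw [hhg, Real.zero_rpow (by linarith)]
      simp
  have hsum : a * a ≤ 2 ^ (n.choose 2) * ((1 / 2 ^ (t.choose 2)) * ((1 + ε) * a + ε * K *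
      (((2 : ℝ) ^ (n.choose 2)) ^ lam * a ^ (1 - lam)))) := by
    rw [hmain, hNc]
    apply mul_le_mul_of_nonneg_left _ (by positivity)
    have e1 := sum_le_sum hterm
    have e2 : ∑ g ∈ s.powerset, (1 / 2 ^ (t.choose 2)) * ((1 + ε) * h g + ε * K *
          ((h g) ^ (1 - lam) * ∏ e ∈ s, (1 / Mf lam (x g e)))) =
          (1 / 2 ^ (t.choose 2)) * ((1 + ε) * a + ε * K *
            ∑ g ∈ s.powerset, ((h g) ^ (1 - lam) * ∏ e ∈ s, (1 / Mf lam (x g e)))) := by
      rw [← mul_sum, sum_add_distrib, ← mul_sum, ← mul_sum, hhsum]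
    rw [e2] at e1
    refine e1.trans ?_
    rw [hNc, hhsum] at hqe
    gcongr
  rcases le_or_gt a P with hle | hgt
  · calc a ≤ P := hle
      _ = 1 * P := (one_mul P).symm
      _ ≤ (1 + 2 * ε) * P := by
          apply mul_le_mul_of_nonneg_right _ hP0.le
          linarith
  · -- `K * (2^N)^lam = P^lam`
    have hKP : K * ((2 : ℝ) ^ (n.choose 2)) ^ lam = P ^ lam := by
      rw [hP, Real.div_rpow (by positivity) (by positivity), hK, Real.rpow_neg (by norm_num)]
      have : (2 : ℝ) ^ (lam * (t.choose 2 : ℝ)) = ((2 : ℝ) ^ (t.choose 2)) ^ lam := by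
        rw [mul_comm, Real.rpow_mul (by norm_num), Real.rpow_natCast]
      rw [this]
      field_simp
    have hpow : P ^ lam * a ^ (1 - lam) ≤ a := by
      calc P ^ lam * a ^ (1 - lam) ≤ a ^ lam * a ^ (1 - lam) := by
            apply mul_le_mul_of_nonneg_right _ (by positivity)
            exact Real.rpow_le_rpow hP0.le hgt.le hl0.le
        _ = a := by
            rw [← Real.rpow_add ha0]
            simp
    have hfin : a * a ≤ ((1 + 2 * ε) * P) * a := by
      calc a * a ≤ _ := hsum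
        _ = P * ((1 + ε) * a + ε * (K * ((2 : ℝ) ^ (n.choose 2)) ^ lam * a ^ (1 - lam))) := by
            rw [hP]; ring
        _ = P * ((1 + ε) * a + ε * (P ^ lam * a ^ (1 - lam))) := by rw [hKP]
        _ ≤ P * ((1 + ε) * a + ε * a) := by gcongr
        _ = _ := by ring
    exact le_of_mul_le_mul_right hfin ha0

theorem asymp (hC : CoupStatement) (hZ : ZStatement) : AsympStatement := by
  classical
  intro ε hε
  obtain ⟨t0, ht0⟩ := hZ (ε / 2) (by positivity)
  refine ⟨max t0 4, fun r n hr hrn F hF => ?_⟩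
  have hr0 : t0 ≤ r := le_trans (le_max_left _ _) hr
  have hr4 : 4 ≤ r := le_trans (le_max_right _ _) hr
  have hrR : (4 : ℝ) ≤ r := by exact_mod_cast hr4
  have hsq : (2 : ℝ) ≤ √r := by
    rw [show (2 : ℝ) = √4 by
      rw [show (4 : ℝ) = 2 ^ 2 by norm_num, Real.sqrt_sq (by norm_num)]]
    exact Real.sqrt_le_sqrt hrR
  have hl0 : 0 < 1 / √(r : ℝ) := by positivity
  have hl1 : 1 / √(r : ℝ) < 1 := by
    rw [div_lt_one (by linarith)]; linarith
  have hZ' := ht0 r hr0 n
  obtain ⟨R0, -, hR0⟩ := exists_subset_card_eq (s := (univ : Finset (Fin n))) (n := r)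
    (by rw [card_univ, Fintype.card_fin]; exact hrn)
  have h1 := agree_asymp (t := r) hl0 hl1 (by positivity : (0:ℝ) < ε / 2) hC (F.image edg)
    (fun x hx => by
      obtain ⟨G, _, rfl⟩ := mem_image.1 hx
      exact edg_sub G)
    (by
      intro x hx y hy
      rw [mem_image] at hx hy
      obtain ⟨G, hG, rfl⟩ := hx
      obtain ⟨H, hH, rfl⟩ := hy
      rw [← Pool.Agent.E8helper59.SI.edg_symmDiff]
      by_cases hGH : G = H
      · subst hGH
        refine ⟨R0, hR0, ?_⟩
        rw [Pool.Agent.E8helper59.SI.edg_symmDiff, symmDiff_self]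
        exact disjoint_bot_left
      · obtain ⟨S, hS⟩ := hF G hG H hH hGH
        refine ⟨S, hS.card_eq, ?_⟩
        rw [Finset.disjoint_left]
        intro e he he'
        rw [mem_Ed_iff] at he'
        obtain ⟨u, v, huv, rfl⟩ := card_eq_two.1 he'.2
        rw [mem_edg] at he
        have hu : u ∈ S := he'.1 (by simp)
        have hv : v ∈ S := he'.1 (by simp)
        exact hS.isIndepSet (mem_coe.2 hu) (mem_coe.2 hv) huv he)
    (fun x hx => hZ' x hx)
  rw [card_image_of_injective _ edg_injective] at h1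
  have h2 : r.choose 2 ≤ n.choose 2 := Nat.choose_le_choose 2 hrn
  have h3 : (2 : ℝ) ^ (n.choose 2) / 2 ^ (r.choose 2) = 2 ^ (n.choose 2 - r.choose 2) := by
    rw [div_eq_iff (by positivity), ← pow_add, Nat.sub_add_cancel h2]
  rw [h3] at h1
  calc (F.card : ℝ) ≤ _ := h1
    _ = _ := by ring

end Pool.Agent.E8helper61.SI
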