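import Mathlib
import Pool.Agent.E8helper61.SI.Stm

set_option autoImplicit false
set_option linter.unusedSectionVars false

open Finset

namespace Pool.Agent.E8helper61.SI

section aux

variable {V : Type} [DecidableEq V]

lemma mem_Ed {R : Finset V} {e : Finset V} : e ∈ Ed R ↔ e ⊆ R ∧ e.card = 2 := by
  unfold Ed; exact mem_powersetCard

lemma Ed_mono {R S : Finset V} (h : R ⊆ S) : Ed R ⊆ Ed S := by
  unfold Ed; exact powersetCard_mono h

lemma card_Ed (R : Finset V) : (Ed R).card = R.card.choose 2 := by
  unfold Ed; exact card_powersetCard 2 R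

lemma mem_star {v : V} {R : Finset V} {e : Finset V} :
    e ∈ star v R ↔ ∃ u ∈ R, ({u, v} : Finset V) = e := by
  unfold star; exact mem_image

lemma star_card {v : V} {R : Finset V} (hv : v ∉ R) : (star v R).card = R.card := by
  unfold star
  apply card_image_of_injOn
  intro u hu w hw h
  have hu' : u ∈ ({w, v} : Finset V) := by
    have : u ∈ ({u, v} : Finset V) := by simp
    simp only at h
    rw [h] at this
    exact this
  simp only [mem_insert, mem_singleton] at hu'
  rcases hu' with h1 | h1
  · exact h1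
  · subst h1; exact absurd (mem_coe.1 hu) hv

lemma star_sub [Fintype V] {v : V} {R : Finset V} (hv : v ∉ R) :
    star v R ⊆ Ed (univ : Finset V) := by
  intro e he
  obtain ⟨u, hu, rfl⟩ := mem_star.1 he
  refine mem_Ed.2 ⟨subset_univ _, card_pair ?_⟩
  rintro rfl
  exact hv hu

lemma star_disj_Ed {v : V} {R : Finset V} (hv : v ∉ R) : Disjoint (star v R) (Ed R) := by
  rw [disjoint_left]
  intro e he he'
  obtain ⟨u, hu, rfl⟩ := mem_star.1 he
  exact hv ((mem_Ed.1 he').1 (by simp))

lemma star_disj_star {v w : V} {R : Finset V} (hv : v ∉ R) (hvw : v ≠ w) :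
    Disjoint (star v R) (star w R) := by
  rw [disjoint_left]
  intro e he he'
  obtain ⟨u, hu, rfl⟩ := mem_star.1 he
  obtain ⟨u', hu', h⟩ := mem_star.1 he'
  have : v ∈ ({u', w} : Finset V) := by rw [h]; simp
  simp only [mem_insert, mem_singleton] at this
  rcases this with h1 | h1
  · subst h1; exact hv hu'
  · exact hvw h1

end aux

theorem cc_card (hC : CountStatement) {n r k : ℕ} (R T : Finset (Fin n)) (hR : R.card = r)
    (hT : Disjoint T R) :
    ((Ed (univ : Finset (Fin n))).powerset.filter (fun x => Disjoint x (Ed R) ∧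
      ∀ v ∈ T, (x ∩ star v R).card ≤ k)).card * (2 ^ (r.choose 2) * (2 ^ r) ^ T.card) ≤
      2 ^ (n.choose 2) * (Bs r k) ^ T.card := by
  have h := hC (Finset (Fin n)) (Fin n) T (Ed (univ : Finset (Fin n))) (Ed R)
    (fun v => star v R) r k (Ed_mono (subset_univ _))
    (fun v hv => star_sub (disjoint_left.1 hT hv))
    (fun v hv => by simpa [hR] using star_card (disjoint_left.1 hT hv))
    (fun v hv => star_disj_Ed (disjoint_left.1 hT hv))
    (fun v hv w hw hvw => star_disj_star (disjoint_left.1 hT hv) hvw)
  rw [card_Ed, card_Ed, hR, card_univ, Fintype.card_fin] at h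
  convert h

theorem main : MainStatement := by
  intro hC hF r n k lam kap hrn hlk hk0 h1 h2 A hA
  classical
  set Ω := Ed (univ : Finset (Fin n)) with hΩ
  let I : Finset (Finset (Fin n)) → Finset (Finset (Fin n)) := fun x =>
    (powersetCard r univ).filter (fun R => Disjoint x (Ed R))
  have hI : ∀ x R, R ∈ I x ↔ R.card = r ∧ Disjoint x (Ed R) := by
    intro x R
    simp only [I, mem_filter, mem_powersetCard]
    constructor
    · rintro ⟨⟨_, h⟩, h'⟩; exact ⟨h, h'⟩
    · rintro ⟨h, h'⟩; exact ⟨⟨subset_univ _, h⟩, h'⟩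
  let W : Finset (Finset (Fin n)) → Finset (Fin n) := fun x => (I x).biUnion id
  have hW : ∀ x R, R ∈ I x → R ⊆ W x := fun x R h => subset_biUnion_of_mem id h
  rcases A.eq_empty_or_nonempty with rfl | hne
  · simp
  obtain ⟨x0, hx0, hmin⟩ := exists_min_image A (fun x => (W x).card) hne
  obtain ⟨-, R0, hR0, hd0⟩ := hA x0 hx0 x0 hx0
  rw [union_self] at hd0
  have hR0W : R0 ⊆ W x0 := hW x0 R0 ((hI _ _).2 ⟨hR0, hd0⟩)
  have hrW : r ≤ (W x0).card := hR0 ▸ card_le_card hR0W
  have hsubΩ : ∀ y ∈ A, y ⊆ Ω := by
    intro y hy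
    have := (hA y hy y hy).1
    rwa [union_self] at this
  -- each y has an independent r-set inside W x0
  have hkey : ∀ y ∈ A, ∃ R, R ⊆ W x0 ∧ R.card = r ∧ Disjoint y (Ed R) := by
    intro y hy
    obtain ⟨-, R, hRc, hRd⟩ := hA x0 hx0 y hy
    rw [disjoint_union_left] at hRd
    exact ⟨R, hW x0 R ((hI _ _).2 ⟨hRc, hRd.1⟩), hRc, hRd.2⟩
  obtain ⟨a, ha⟩ : ∃ a, (W x0).card = r + a := ⟨(W x0).card - r, by omega⟩
  have hWn : (W x0).card ≤ n := by
    have := card_le_univ (W x0)
    simpa using this
  rcases Nat.eq_zero_or_pos a with rfl | hapos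
  · -- star case
    have hsub : A ⊆ Ω.powerset.filter (fun x => Disjoint x (Ed (W x0)) ∧
        ∀ v ∈ (∅ : Finset (Fin n)), (x ∩ star v (W x0)).card ≤ k) := by
      intro y hy
      obtain ⟨R, hR, hRc, hRd⟩ := hkey y hy
      have hRW : R = W x0 := eq_of_subset_of_card_le hR (by omega)
      rw [mem_filter, mem_powerset]
      refine ⟨hsubΩ y hy, hRW ▸ hRd, fun v hv => absurd hv (notMem_empty v)⟩
    have hc := cc_card (k := k) hC (W x0) ∅ (by simpa using ha) (disjoint_empty_left _)
    have hle := card_le_card hsub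
    rw [card_empty, pow_zero, pow_zero, mul_one, mul_one] at hc
    exact (Nat.mul_le_mul_right _ hle).trans hc
  · -- main case
    let Far : ℕ → Finset (Finset (Finset (Fin n))) := fun j =>
      Ω.powerset.filter (fun x => ∃ R S : Finset (Fin n), R.card = r ∧ S.card = r ∧
        Disjoint x (Ed R) ∧ Disjoint x (Ed S) ∧ (S \ R).card = j)
    let CC : Finset (Fin n) → Finset (Fin n) → Finset (Finset (Finset (Fin n))) := fun R T =>
      Ω.powerset.filter (fun x => Disjoint x (Ed R) ∧ ∀ v ∈ T, (x ∩ star v R).card ≤ k)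
    have hcov : A ⊆ (Ioc k r).biUnion Far ∪ ((W x0).powersetCard r).biUnion
        (fun R => ((univ \ R).powersetCard a).biUnion (fun T => CC R T)) := by
      intro y hy
      obtain ⟨R, hR, hRc, hRd⟩ := hkey y hy
      rw [mem_union]
      by_cases hfar : ∃ S ∈ I y, k < (S \ R).card
      · left
        obtain ⟨S, hS, hlt⟩ := hfar
        obtain ⟨hSc, hSd⟩ := (hI _ _).1 hS
        rw [mem_biUnion]
        refine ⟨(S \ R).card, mem_Ioc.2 ⟨hlt, ?_⟩, ?_⟩
        · exact (card_le_card sdiff_subset).trans hSc.le
        · rw [mem_filter, mem_powerset]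
          exact ⟨hsubΩ y hy, R, S, hRc, hSc, hRd, hSd, rfl⟩
      · right
        push Not at hfar
        have hcardW : a ≤ (W y \ R).card := by
          have h3 := le_card_sdiff R (W y)
          have h4 : (W x0).card ≤ (W y).card := hmin y hy
          omega
        obtain ⟨T, hTsub, hTc⟩ := exists_subset_card_eq hcardW
        rw [mem_biUnion]
        refine ⟨R, mem_powersetCard.2 ⟨hR, hRc⟩, ?_⟩
        rw [mem_biUnion]
        refine ⟨T, mem_powersetCard.2 ⟨?_, hTc⟩, ?_⟩
        · exact hTsub.trans (sdiff_subset_sdiff (subset_univ _) subset_rfl)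
        · rw [mem_filter, mem_powerset]
          refine ⟨hsubΩ y hy, hRd, ?_⟩
          intro v hv
          have hvW := hTsub hv
          rw [mem_sdiff] at hvW
          obtain ⟨S, hS, hvS⟩ := mem_biUnion.1 hvW.1
          simp only [id] at hvS
          obtain ⟨hSc, hSd⟩ := (hI _ _).1 hS
          have hsub : y ∩ star v R ⊆ (R \ S).image (fun u => ({u, v} : Finset (Fin n))) := by
            intro e he
            rw [mem_inter] at he
            obtain ⟨u, hu, rfl⟩ := mem_star.1 he.2
            refine mem_image.2 ⟨u, mem_sdiff.2 ⟨hu, ?_⟩, rfl⟩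
            intro huS
            have huv : u ≠ v := by
              rintro rfl
              exact hvW.2 hu
            apply (disjoint_left.1 hSd) he.1
            refine mem_Ed.2 ⟨?_, card_pair huv⟩
            intro z hz
            simp only [mem_insert, mem_singleton] at hz
            rcases hz with rfl | rfl
            · exact huS
            · exact hvS
          calc (y ∩ star v R).card ≤ ((R \ S).image (fun u => ({u, v} : Finset (Fin n)))).card :=
                card_le_card hsub
            _ ≤ (R \ S).card := card_image_le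
            _ = (S \ R).card := card_sdiff_comm (by omega)
            _ ≤ k := hfar S hS
    have hcard := (card_le_card hcov).trans (card_union_le _ _)
    have hfarc : ((Ioc k r).biUnion Far).card ≤ ∑ j ∈ Ioc k r, (Far j).card := card_biUnion_le
    have hccc : (((W x0).powersetCard r).biUnion
        (fun R => ((univ \ R).powersetCard a).biUnion (fun T => CC R T))).card ≤
        ∑ R ∈ (W x0).powersetCard r, ∑ T ∈ (univ \ R).powersetCard a, (CC R T).card :=
      card_biUnion_le.trans (sum_le_sum (fun R _ => card_biUnion_le))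
    -- real bounds
    have hN : (0 : ℝ) < 2 ^ (n.choose 2) := by positivity
    have hr2 : (0 : ℝ) < 2 ^ (r.choose 2) := by positivity
    have hfarR : (∑ j ∈ Ioc k r, ((Far j).card : ℝ)) ≤
        2 ^ (n.choose 2) / 2 ^ (r.choose 2) * kap := by
      calc (∑ j ∈ Ioc k r, ((Far j).card : ℝ)) ≤ ∑ j ∈ Ioc k r,
            2 ^ (n.choose 2) / 2 ^ (r.choose 2) *
              (((n.choose r * (r.choose j * (n - r).choose j) : ℝ)) /
                2 ^ (j * (r - j) + j.choose 2)) := by
            apply sum_le_sum
            intro j hj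
            have h3 := hF (Fin n) r j (mem_Ioc.1 hj).2
            rw [Fintype.card_fin] at h3
            have h4 : ((Far j).card : ℝ) * (2 ^ (r.choose 2) * 2 ^ (j * (r - j) + j.choose 2)) ≤
                2 ^ (n.choose 2) * (n.choose r * (r.choose j * ((n - r).choose j : ℕ))) := by
              exact_mod_cast h3
            rw [div_mul_div_comm, le_div_iff₀ (by positivity)]
            exact h4
        _ = 2 ^ (n.choose 2) / 2 ^ (r.choose 2) * ∑ j ∈ Ioc k r,
              (((n.choose r * (r.choose j * (n - r).choose j) : ℝ)) /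
                2 ^ (j * (r - j) + j.choose 2)) := by rw [mul_sum]
        _ ≤ 2 ^ (n.choose 2) / 2 ^ (r.choose 2) * kap := by
            apply mul_le_mul_of_nonneg_left h2 (by positivity)
    have hccR : (∑ R ∈ (W x0).powersetCard r, ∑ T ∈ (univ \ R).powersetCard a,
        ((CC R T).card : ℝ)) ≤ 2 ^ (n.choose 2) / 2 ^ (r.choose 2) * lam := by
      have hone : ∀ R ∈ (W x0).powersetCard r, ∑ T ∈ (univ \ R).powersetCard a,
          ((CC R T).card : ℝ) ≤ (n - r).choose a *
            (2 ^ (n.choose 2) * (Bs r k) ^ a / (2 ^ (r.choose 2) * (2 ^ r) ^ a)) := by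
        intro R hR
        have hRc : R.card = r := (mem_powersetCard.1 hR).2
        have hcT : ((univ \ R).powersetCard a).card = (n - r).choose a := by
          rw [card_powersetCard, card_sdiff_of_subset (subset_univ _), card_univ,
            Fintype.card_fin, hRc]
        calc ∑ T ∈ (univ \ R).powersetCard a, ((CC R T).card : ℝ) ≤
            ∑ T ∈ (univ \ R).powersetCard a,
            ((2 : ℝ) ^ (n.choose 2) * (Bs r k) ^ a / (2 ^ (r.choose 2) * (2 ^ r) ^ a)) := by
              apply sum_le_sum
              intro T hT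
              rw [mem_powersetCard] at hT
              have hdis : Disjoint T R := by
                rw [disjoint_left]
                intro v hv
                exact (mem_sdiff.1 (hT.1 hv)).2
              have h5 := cc_card (k := k) hC R T hRc hdis
              rw [hT.2] at h5
              rw [le_div_iff₀ (by positivity)]
              exact_mod_cast h5
          _ = _ := by rw [sum_const, hcT, nsmul_eq_mul]
      calc (∑ R ∈ (W x0).powersetCard r, ∑ T ∈ (univ \ R).powersetCard a,
          ((CC R T).card : ℝ)) ≤ ∑ R ∈ (W x0).powersetCard r, ((n - r).choose a : ℝ) *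
            (2 ^ (n.choose 2) * (Bs r k) ^ a / (2 ^ (r.choose 2) * (2 ^ r) ^ a)) :=
            sum_le_sum hone
        _ = ((r + a).choose r : ℝ) * (((n - r).choose a : ℝ) *
            (2 ^ (n.choose 2) * (Bs r k) ^ a / (2 ^ (r.choose 2) * (2 ^ r) ^ a))) := by
            rw [sum_const, card_powersetCard, ha, nsmul_eq_mul]
        _ = 2 ^ (n.choose 2) / 2 ^ (r.choose 2) *
            (((r + a).choose r * (n - r).choose a * (Bs r k) ^ a : ℝ) / (2 ^ r) ^ a) := by
            field_simp
        _ ≤ 2 ^ (n.choose 2) / 2 ^ (r.choose 2) * lam := by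
            apply mul_le_mul_of_nonneg_left _ (by positivity)
            rw [div_le_iff₀ (by positivity)]
            exact h1 a hapos (by omega)
    have hfin : (A.card : ℝ) ≤ 2 ^ (n.choose 2) / 2 ^ (r.choose 2) := by
      have h6 : (A.card : ℝ) ≤ (∑ j ∈ Ioc k r, ((Far j).card : ℝ)) +
          ∑ R ∈ (W x0).powersetCard r, ∑ T ∈ (univ \ R).powersetCard a, ((CC R T).card : ℝ) := by
        have h7 : A.card ≤ (∑ j ∈ Ioc k r, (Far j).card) +
          ∑ R ∈ (W x0).powersetCard r, ∑ T ∈ (univ \ R).powersetCard a, (CC R T).card :=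
          hcard.trans (add_le_add hfarc hccc)
        exact_mod_cast h7
      calc (A.card : ℝ) ≤ _ := h6
        _ ≤ 2 ^ (n.choose 2) / 2 ^ (r.choose 2) * kap +
            2 ^ (n.choose 2) / 2 ^ (r.choose 2) * lam := add_le_add hfarR hccR
        _ = 2 ^ (n.choose 2) / 2 ^ (r.choose 2) * (lam + kap) := by ring
        _ ≤ 2 ^ (n.choose 2) / 2 ^ (r.choose 2) * 1 :=
            mul_le_mul_of_nonneg_left hlk (by positivity)
        _ = _ := mul_one _
    rw [le_div_iff₀ hr2] at hfin
    exact_mod_cast hfin

end Pool.Agent.E8helper61.SI
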