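import Mathlib
import Pool.Agent.E8helper61.SI.Main

set_option autoImplicit false

open Finset

namespace Pool.Agent.E8helper61.SI

lemma choose_add_le (r a : ℕ) : (r + a).choose r ≤ (r + 1) ^ a := by
  induction a with
  | zero => simp
  | succ a ih =>
    have h : (a + 1) * (r + (a + 1)).choose (a + 1) = (r + a + 1) * (r + a).choose a := by
      have := Nat.add_one_mul_choose_eq (r + a) a
      rw [show r + (a + 1) = r + a + 1 by ring]
      linarith
    have hs1 : (r + (a + 1)).choose r = (r + (a + 1)).choose (a + 1) := by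
      rw [← Nat.choose_symm (Nat.le_add_left (a + 1) r)]
      congr 1
      omega
    have hs2 : (r + a).choose r = (r + a).choose a := by
      rw [← Nat.choose_symm (Nat.le_add_left a r)]
      congr 1
      omega
    rw [hs1]
    have h2 : (r + a + 1) ≤ (r + 1) * (a + 1) := by nlinarith
    have h3 : (a + 1) * (r + (a + 1)).choose (a + 1) ≤ (a + 1) * (r + 1) ^ (a + 1) := by
      rw [h, ← hs2]
      calc (r + a + 1) * (r + a).choose r ≤ ((r + 1) * (a + 1)) * (r + 1) ^ a :=
            Nat.mul_le_mul h2 ih
        _ = (a + 1) * (r + 1) ^ (a + 1) := by ring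
    exact Nat.le_of_mul_le_mul_left h3 (Nat.succ_pos a)

lemma choose_le_self_pow (m a : ℕ) : m.choose a ≤ m ^ a := Nat.choose_le_pow m a

lemma prod_bound (r t B a : ℕ) : (r + a).choose r * t.choose a * B ^ a ≤ ((r + 1) * t * B) ^ a := by
  rw [mul_pow, mul_pow]
  exact Nat.mul_le_mul (Nat.mul_le_mul (choose_add_le r a) (choose_le_self_pow t a)) le_rfl

theorem union_lin (hC : CountStatement) (hF : FarStatement) (r n : ℕ) (hrn : r ≤ n)
    (h : (r + 1) * (n - r) * Bs r (n - r) ≤ 2 ^ r) : UnionBound r n := by
  refine main hC hF r n (n - r) 1 0 hrn (by norm_num) le_rfl ?_ ?_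
  · intro a _ _
    rw [one_mul]
    have h1 := (prod_bound r (n - r) (Bs r (n - r)) a).trans (Nat.pow_le_pow_left h a)
    exact_mod_cast h1
  · apply le_of_eq
    apply sum_eq_zero
    intro j hj
    rw [Nat.choose_eq_zero_of_lt (mem_Ioc.1 hj).1]
    simp

theorem union_exp (hC : CountStatement) (hF : FarStatement) (hA : NumAStatement)
    (hB : NumBStatement) (r n : ℕ) (hr : 4 ≤ r) (hrn : r ≤ n) (h : n ^ 8 ≤ 2 ^ r) :
    UnionBound r n := by
  refine main hC hF r n (r / 6) (1 / 2) (1 / 2) hrn (by norm_num) (by norm_num) ?_ ?_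
  · intro a ha _
    have h1 := hA r n hr hrn h
    have h2 : 2 * ((r + a).choose r * (n - r).choose a * (Bs r (r / 6)) ^ a) ≤ (2 ^ r) ^ a := by
      calc 2 * ((r + a).choose r * (n - r).choose a * (Bs r (r / 6)) ^ a)
          ≤ 2 ^ a * ((r + 1) * (n - r) * Bs r (r / 6)) ^ a := by
            apply Nat.mul_le_mul _ (prod_bound _ _ _ _)
            calc 2 = 2 ^ 1 := (pow_one 2).symm
              _ ≤ 2 ^ a := Nat.pow_le_pow_right (by norm_num) ha
        _ = (2 * ((r + 1) * (n - r) * Bs r (r / 6))) ^ a := (mul_pow _ _ _).symm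
        _ ≤ (2 * ((r + 1) * n * Bs r (r / 6))) ^ a := by
            apply Nat.pow_le_pow_left
            apply Nat.mul_le_mul_left
            apply Nat.mul_le_mul_right
            apply Nat.mul_le_mul_left
            exact Nat.sub_le _ _
        _ ≤ (2 ^ r) ^ a := Nat.pow_le_pow_left h1 a
    have h3 : (2 : ℝ) * ((r + a).choose r * (n - r).choose a * (Bs r (r / 6)) ^ a) ≤
        (2 ^ r) ^ a := by exact_mod_cast h2
    linarith
  · calc (∑ j ∈ Ioc (r / 6) r, ((n.choose r * (r.choose j * (n - r).choose j) : ℝ) /
      2 ^ (j * (r - j) + j.choose 2))) ≤ ∑ j ∈ Ioc (r / 6) r, (1 : ℝ) / 2 ^ r := by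
          apply sum_le_sum
          intro j hj
          rw [mem_Ioc] at hj
          have h1 := hB r n j hr hrn h (by omega) hj.2
          rw [div_le_div_iff₀ (by positivity) (by positivity), one_mul]
          have h2 : ((2 : ℝ) ^ r * (n.choose r * (r.choose j * (n - r).choose j))) ≤
            2 ^ (j * (r - j) + j.choose 2) := by exact_mod_cast h1
          linarith
      _ ≤ (r : ℝ) * (1 / 2 ^ r) := by
          rw [sum_const, nsmul_eq_mul]
          apply mul_le_mul_of_nonneg_right _ (by positivity)
          have : (Ioc (r / 6) r).card ≤ r := by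
            rw [Nat.card_Ioc]; omega
          exact_mod_cast this
      _ ≤ 1 / 2 := by
          rw [mul_one_div, div_le_div_iff₀ (by positivity) (by norm_num)]
          have : r * 2 ≤ 1 * 2 ^ r := by
            clear h hrn hB hA hF hC
            induction r, hr using Nat.le_induction with
            | base => norm_num
            | succ m hm ih => rw [pow_succ]; omega
          exact_mod_cast this

end Pool.Agent.E8helper61.SI
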