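import Mathlib
import Pool.Agent.E8helper61.SI.Fin
import Pool.Agent.E8helper80.SI.Comp
import Pool.Agent.E8helper9.SI.Cnt
import Pool.Agent.E8helper9.SI.NumA
import Pool.Agent.E8helper27.SI.NumB
import Pool.Agent.E8helper97.SI.Far
import Pool.Agent.E8helper79.SI.Lin
import Pool.Agent.E8helper59.SI.Low
import Pool.Agent.E8helper59.SI.Up

set_option autoImplicit false

namespace Pool.Agent.E8helper61.SI

/-- The value of `A_r(n)` is `2^(C(n,2) - C(r,2))`: every admissible family has at most that many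
members, and some admissible family has exactly that many. -/
def Exact (r n : ℕ) : Prop :=
  (∀ F : Finset (SimpleGraph (Fin n)), Adm r n F → F.card ≤ 2 ^ (n.choose 2 - r.choose 2)) ∧
  (∃ F : Finset (SimpleGraph (Fin n)), Adm r n F ∧ F.card = 2 ^ (n.choose 2 - r.choose 2))

theorem exact_of_union {r n : ℕ} (hrn : r ≤ n) (h : UnionBound r n) : Exact r n :=
  ⟨Pool.Agent.E8helper59.SI.up Pool.Agent.E8helper80.SI.comp r n hrn h,
    Pool.Agent.E8helper59.SI.low r n hrn⟩

theorem exact_exp (r n : ℕ) (hr : 4 ≤ r) (hrn : r ≤ n) (h : n ^ 8 ≤ 2 ^ r) : Exact r n :=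
  exact_of_union hrn (union_exp Pool.Agent.E8helper9.SI.cnt Pool.Agent.E8helper97.SI.far
    Pool.Agent.E8helper9.SI.numA Pool.Agent.E8helper27.SI.numB r n hr hrn h)

theorem exact_crit (r n : ℕ) (hrn : r ≤ n)
    (h : (r + 1) * (n - r) * Bs r (n - r) ≤ 2 ^ r) : Exact r n :=
  exact_of_union hrn (union_lin Pool.Agent.E8helper9.SI.cnt Pool.Agent.E8helper97.SI.far r n hrn h)

theorem exact_lin (r n : ℕ) (hr : 11 ≤ r) (hrn : r ≤ n) (h : 5 * (n - r) ≤ r) : Exact r n :=
  exact_crit r n hrn (Pool.Agent.E8helper79.SI.lin r (n - r) hr h)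

end Pool.Agent.E8helper61.SI
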