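import Mathlib
import Pool.Agent.E8helper61.SI.Stm2
import Pool.Agent.E8helper61.SI.Main

set_option autoImplicit false

open Finset

namespace Pool.Agent.E8helper61.SI

open Classical in
theorem sum_bound (hRich : RichStatement) {n r k a : ℕ} (A' : Finset (Finset (Finset (Fin n))))
    (C : Finset (Finset (Fin n))) (hC : ∀ R ∈ C, R.card = r)
    (h : ∀ y ∈ A', y ⊆ Ed (univ : Finset (Fin n)) ∧ (∃ R ∈ C, Disjoint y (Ed R)) ∧
      r + a ≤ (Wd r y).card) :
    (A'.card : ℝ) ≤ C.card * (2 ^ (n.choose 2) / 2 ^ (r.choose 2) * qr n r k a) := by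
  have hsub : A' ⊆ C.biUnion (fun R => (Ed (univ : Finset (Fin n))).powerset.filter
      (fun x => Disjoint x (Ed R) ∧ r + a ≤ (Wd r x).card)) := by
    intro y hy
    obtain ⟨h1, ⟨R, hR, hd⟩, h3⟩ := h y hy
    rw [mem_biUnion]
    exact ⟨R, hR, mem_filter.2 ⟨mem_powerset.2 h1, hd, h3⟩⟩
  have h1 : A'.card ≤ ∑ R ∈ C, ((Ed (univ : Finset (Fin n))).powerset.filter
      (fun x => Disjoint x (Ed R) ∧ r + a ≤ (Wd r x).card)).card :=
    (card_le_card hsub).trans card_biUnion_le
  calc (A'.card : ℝ) ≤ ∑ R ∈ C, (((Ed (univ : Finset (Fin n))).powerset.filter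
      (fun x => Disjoint x (Ed R) ∧ r + a ≤ (Wd r x).card)).card : ℝ) := by exact_mod_cast h1
    _ ≤ ∑ R ∈ C, (2 ^ (n.choose 2) / 2 ^ (r.choose 2) * qr n r k a : ℝ) :=
        sum_le_sum (fun R hR => hRich n r k a R (hC R hR))
    _ = _ := by rw [sum_const, nsmul_eq_mul]

lemma pw_nonneg (n r j : ℕ) : 0 ≤ pw n r j := by unfold pw; positivity

lemma qr_nonneg (n r k a : ℕ) : 0 ≤ qr n r k a := by
  unfold qr
  have : 0 ≤ ∑ j ∈ Ioc k r, pw n r j := sum_nonneg (fun j _ => pw_nonneg n r j)
  positivity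

lemma sg_nonneg (n r g L : ℕ) : 0 ≤ sg n r g L := by
  unfold sg
  apply sum_nonneg
  intro k _
  positivity

theorem half : HalfMainStatement := by
  intro hRich hBad hStruct hCand r n k1 k2 g m hrn H1 H2 A hA
  classical
  set Ω := Ed (univ : Finset (Fin n)) with hΩ
  rcases A.eq_empty_or_nonempty with rfl | hne
  · simp
  obtain ⟨x1, hx1, hmin⟩ := exists_min_image A (fun x => (Wd r x).card) hne
  have hsubΩ : ∀ y ∈ A, y ⊆ Ω := by
    intro y hy
    have := (hA y hy y hy).1
    rwa [union_self] at this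
  have hWd : ∀ (x : Finset (Finset (Fin n))) (R : Finset (Fin n)), Ind r x R → R ⊆ Wd r x := by
    intro x R hR v hv
    unfold Wd
    rw [mem_filter]
    exact ⟨mem_univ _, R, hR, hv⟩
  have hcommon : ∀ x ∈ A, ∀ y ∈ A, ∃ R, Ind r x R ∧ Ind r y R := by
    intro x hx y hy
    obtain ⟨-, R, hRc, hRd⟩ := hA x hx y hy
    rw [disjoint_union_left] at hRd
    exact ⟨R, ⟨hRc, hRd.1⟩, hRc, hRd.2⟩
  obtain ⟨R0, hR0, -⟩ := hcommon x1 hx1 x1 hx1
  have hrW : r ≤ (Wd r x1).card := by
    have h0 := card_le_card (hWd x1 R0 hR0)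
    have h00 := hR0.1
    omega
  obtain ⟨a, ha⟩ : ∃ a, (Wd r x1).card = r + a := ⟨(Wd r x1).card - r, by omega⟩
  have hpos : (0 : ℝ) < 2 ^ (n.choose 2) / 2 ^ (r.choose 2) := by positivity
  -- it suffices to bound the real number
  suffices hfin : (A.card : ℝ) ≤ 2 ^ (n.choose 2) / 2 ^ (r.choose 2) by
    rw [le_div_iff₀ (by positivity)] at hfin
    exact_mod_cast hfin
  rcases Nat.eq_zero_or_pos a with rfl | hapos
  · -- star case
    have hsub : A ⊆ Ω.powerset.filter (fun x => Disjoint x (Ed (Wd r x1)) ∧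
        Chain r g x 0 (Wd r x1)) := by
      intro y hy
      obtain ⟨R, hR, hR'⟩ := hcommon x1 hx1 y hy
      have hRW : R = Wd r x1 := eq_of_subset_of_card_le (hWd x1 R hR) (by rw [ha, hR.1]; simp)
      rw [mem_filter, mem_powerset]
      exact ⟨hsubΩ y hy, hRW ▸ hR'.2, trivial⟩
    have hc := hBad n r g ((Wd r x1).card) 0 (Wd r x1) (Ed (Wd r x1)) subset_rfl (by simp)
    rw [card_Ed, ha, pow_zero, mul_one, add_zero] at hc
    refine le_trans (Nat.cast_le.2 (card_le_card hsub)) ?_
    convert hc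
  · rcases Nat.lt_or_ge r a with har | har
    · -- all the sets are rich
      let Bd : Finset (Finset (Finset (Fin n))) := Ω.powerset.filter
        (fun x => ∃ R, Ind r x R ∧ Chain r g x m R)
      have hBd : (Bd.card : ℝ) ≤ 2 ^ (n.choose 2) / 2 ^ (r.choose 2) *
          ((n.choose r : ℝ) * (sg n r g ((m + 1) * r)) ^ m) := by
        have hsub : Bd ⊆ ((univ : Finset (Fin n)).powersetCard r).biUnion (fun R =>
            Ω.powerset.filter (fun x => Disjoint x (Ed R) ∧ Chain r g x m R)) := by
          intro x hx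
          obtain ⟨h1, R, hR, hch⟩ := mem_filter.1 hx
          rw [mem_biUnion]
          exact ⟨R, mem_powersetCard.2 ⟨subset_univ _, hR.1⟩, mem_filter.2 ⟨h1, hR.2, hch⟩⟩
        have h1 : Bd.card ≤ ∑ R ∈ (univ : Finset (Fin n)).powersetCard r,
            (Ω.powerset.filter (fun x => Disjoint x (Ed R) ∧ Chain r g x m R)).card :=
          (card_le_card hsub).trans card_biUnion_le
        calc (Bd.card : ℝ) ≤ ∑ R ∈ (univ : Finset (Fin n)).powersetCard r,
            ((Ω.powerset.filter (fun x => Disjoint x (Ed R) ∧ Chain r g x m R)).card : ℝ) := by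
              exact_mod_cast h1
          _ ≤ ∑ R ∈ (univ : Finset (Fin n)).powersetCard r,
            (2 ^ (n.choose 2) / 2 ^ (r.choose 2) * (sg n r g ((m + 1) * r)) ^ m : ℝ) := by
              apply sum_le_sum
              intro R hR
              have hRc := (mem_powersetCard.1 hR).2
              have h2 := hBad n r g ((m + 1) * r) m R (Ed R) subset_rfl (by rw [hRc]; ring_nf; rfl)
              rw [card_Ed, hRc] at h2
              exact h2
          _ = _ := by
              rw [sum_const, card_powersetCard, card_univ, Fintype.card_fin, nsmul_eq_mul]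
              ring
      have hq : (0 : ℝ) ≤ (2 : ℝ) ^ ((m + 1) * r) * Bs n g * qr n r k2 r := by
        have := qr_nonneg n r k2 r
        positivity
      by_cases hall : ∀ y ∈ A, y ∈ Bd
      · calc (A.card : ℝ) ≤ Bd.card := by exact_mod_cast card_le_card hall
          _ ≤ _ := hBd
          _ ≤ 2 ^ (n.choose 2) / 2 ^ (r.choose 2) * 1 := by
              apply mul_le_mul_of_nonneg_left _ hpos.le
              linarith
          _ = _ := mul_one _
      · push Not at hall
        obtain ⟨x0, hx0, hx0B⟩ := hall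
        obtain ⟨R1, hR1, -⟩ := hcommon x0 hx0 x0 hx0
        have hnc : ¬ Chain r g x0 m R1 := by
          intro hch
          exact hx0B (mem_filter.2 ⟨mem_powerset.2 (hsubΩ x0 hx0), R1, hR1, hch⟩)
        obtain ⟨U, -, hUc, hU⟩ := hStruct n r g m x0 R1 hnc
        rw [hR1.1] at hUc
        have hUc' : U.card ≤ (m + 1) * r := by rw [add_mul, one_mul]; omega
        have hcand := hCand n r g U
        have hrest := sum_bound (k := k2) (a := r) hRich (A.filter (fun y => y ∉ Bd))
          ((univ : Finset (Finset (Fin n))).filter (fun R => R.card = r ∧ (R \ U).card < g))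
          (fun R hR => (mem_filter.1 hR).2.1) (by
            intro y hy
            obtain ⟨hyA, -⟩ := mem_filter.1 hy
            refine ⟨hsubΩ y hyA, ?_, ?_⟩
            · obtain ⟨R, hR, hR'⟩ := hcommon x0 hx0 y hyA
              exact ⟨R, mem_filter.2 ⟨mem_univ _, hR.1, hU R hR⟩, hR'.2⟩
            · have : (Wd r x1).card ≤ (Wd r y).card := hmin y hyA
              omega)
        have hsplit : (A.card : ℝ) ≤ Bd.card + (A.filter (fun y => y ∉ Bd)).card := by
          have h1 : A ⊆ Bd ∪ A.filter (fun y => y ∉ Bd) := by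
            intro y hy
            by_cases hyB : y ∈ Bd
            · exact mem_union_left _ hyB
            · exact mem_union_right _ (mem_filter.2 ⟨hy, hyB⟩)
          have h2 := (card_le_card h1).trans (card_union_le _ _)
          exact_mod_cast h2
        have hc2 : (((univ : Finset (Finset (Fin n))).filter
            (fun R => R.card = r ∧ (R \ U).card < g)).card : ℝ) ≤
            2 ^ ((m + 1) * r) * Bs n g := by
          have h1 : ((univ : Finset (Finset (Fin n))).filter
            (fun R => R.card = r ∧ (R \ U).card < g)).card ≤ 2 ^ ((m + 1) * r) * Bs n g := by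
            calc _ ≤ 2 ^ U.card * Bs n g := by convert hcand
              _ ≤ _ := Nat.mul_le_mul_right _ (Nat.pow_le_pow_right (by norm_num) hUc')
          exact_mod_cast h1
        have hq' : 0 ≤ (2 : ℝ) ^ (n.choose 2) / 2 ^ (r.choose 2) * qr n r k2 r :=
          mul_nonneg hpos.le (qr_nonneg _ _ _ _)
        calc (A.card : ℝ) ≤ _ := hsplit
          _ ≤ 2 ^ (n.choose 2) / 2 ^ (r.choose 2) *
              ((n.choose r : ℝ) * (sg n r g ((m + 1) * r)) ^ m) +
              (2 ^ ((m + 1) * r) * Bs n g) *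
                (2 ^ (n.choose 2) / 2 ^ (r.choose 2) * qr n r k2 r) :=
              add_le_add hBd (hrest.trans (mul_le_mul_of_nonneg_right hc2 hq'))
          _ = 2 ^ (n.choose 2) / 2 ^ (r.choose 2) * ((n.choose r : ℝ) *
              (sg n r g ((m + 1) * r)) ^ m + (2 : ℝ) ^ ((m + 1) * r) * Bs n g * qr n r k2 r) := by
              ring
          _ ≤ 2 ^ (n.choose 2) / 2 ^ (r.choose 2) * 1 :=
              mul_le_mul_of_nonneg_left H2 hpos.le
          _ = _ := mul_one _
    · -- 1 ≤ a ≤ r
      have hb := sum_bound (k := k1) (a := a) hRich A ((Wd r x1).powersetCard r)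
        (fun R hR => (mem_powersetCard.1 hR).2) (by
          intro y hy
          refine ⟨hsubΩ y hy, ?_, ?_⟩
          · obtain ⟨R, hR, hR'⟩ := hcommon x1 hx1 y hy
            exact ⟨R, mem_powersetCard.2 ⟨hWd x1 R hR, hR.1⟩, hR'.2⟩
          · have : (Wd r x1).card ≤ (Wd r y).card := hmin y hy
            omega)
      rw [card_powersetCard, ha] at hb
      calc (A.card : ℝ) ≤ _ := hb
        _ = 2 ^ (n.choose 2) / 2 ^ (r.choose 2) *
            (((r + a).choose r : ℝ) * qr n r k1 a) := by ring
        _ ≤ 2 ^ (n.choose 2) / 2 ^ (r.choose 2) * 1 :=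
            mul_le_mul_of_nonneg_left (H1 a hapos har) hpos.le
        _ = _ := mul_one _

end Pool.Agent.E8helper61.SI
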