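import Mathlib
import Pool.Agent.E8helper61.SI.Final1
import Pool.Agent.E8helper61.SI.Half
import Pool.Agent.E8helper71.SI.Rich
import Pool.Agent.E8helper52.SI.Bad
import Pool.Agent.E8helper91.SI.Struct
import Pool.Agent.E8helper14.SI.Bsp
import Pool.Agent.E8helper79.SI.Pw
import Pool.Agent.E8helper87.SI.H1
import Pool.Agent.E8helper89.SI.H2A
import Pool.Agent.E8helper40.SI.H2B

set_option autoImplicit false

namespace Pool.Agent.E8helper61.SI

theorem exact_half (ε : ℝ) (hε : 0 < ε) : ∃ r₀ : ℕ, ∀ r n : ℕ, r₀ ≤ r → r ≤ n →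
    (n : ℝ) ≤ (2 : ℝ) ^ ((1 / 2 - ε) * r) → Exact r n := by
  set δ : ℝ := min ε (1 / 2) with hδ
  have hδ0 : 0 < δ := lt_min hε (by norm_num)
  have hδ1 : δ ≤ 1 / 2 := min_le_right _ _
  obtain ⟨k, ra, ha⟩ := Pool.Agent.E8helper87.SI.h1 Pool.Agent.E8helper79.SI.pws
    Pool.Agent.E8helper14.SI.bsp δ hδ0 hδ1
  obtain ⟨rb, hb⟩ := Pool.Agent.E8helper89.SI.h2a Pool.Agent.E8helper79.SI.pws δ hδ0 hδ1
  obtain ⟨rc, hc⟩ := Pool.Agent.E8helper40.SI.h2b Pool.Agent.E8helper79.SI.pws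
    Pool.Agent.E8helper14.SI.bsp δ hδ0 hδ1 ⌈128 / δ ^ 2⌉₊
  refine ⟨max ra (max rb rc), fun r n hr hrn hn => ?_⟩
  have hr1 : ra ≤ r := le_trans (le_max_left _ _) hr
  have hr2 : rb ≤ r := le_trans (le_trans (le_max_left _ _) (le_max_right _ _)) hr
  have hr3 : rc ≤ r := le_trans (le_trans (le_max_right _ _) (le_max_right _ _)) hr
  have hn' : (n : ℝ) ≤ (2 : ℝ) ^ ((1 / 2 - δ) * r) := by
    refine hn.trans ?_
    apply Real.rpow_le_rpow_of_exponent_le (by norm_num)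
    apply mul_le_mul_of_nonneg_right _ (Nat.cast_nonneg r)
    have : δ ≤ ε := min_le_left _ _
    linarith
  apply exact_of_union hrn
  refine half Pool.Agent.E8helper71.SI.rich Pool.Agent.E8helper52.SI.bad
    Pool.Agent.E8helper91.SI.struct Pool.Agent.E8helper91.SI.cand r n k (r / 16)
    ⌊δ / 32 * r⌋₊ ⌈128 / δ ^ 2⌉₊ hrn ?_ ?_
  · intro a ha1 ha2
    exact ha r n hr1 hn' a ha1 ha2
  · have h1 := hb r n hr2 hn'
    have h2 := hc r n hr3 hn'
    linarith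

end Pool.Agent.E8helper61.SI
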